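import Pool.Agent.H28.EN.Targets

set_option autoImplicit false

open Finset Pool.Agent.H6.N4D Pool.Agent.H93.EB

namespace Pool.Agent.H5.EN

open Pool.Agent.H28.EN

theorem slo_one (q N n : ℕ) (θ φ θ' φ' : ℝ) (hq : 1 ≤ q) (hN : 1 ≤ N)
    (h : nd (q * (θ - θ')) < 5 * (q : ℝ) / N) :
    ∃ r s : ℝ, |r| ≤ 1 / 2 ∧ |s| ≤ 5 ∧ ∀ m : ℕ, q ∣ m →
    Real.cos (2 * Real.pi * (θ' * m + φ')) =
      Real.cos (2 * Real.pi * (th N θ s * m + ph N n φ r s)) := by
  have hq0 : (0 : ℝ) < q := by exact_mod_cast hq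
  have hN0 : (0 : ℝ) < N := by exact_mod_cast hN
  unfold nd at h
  obtain ⟨a, ha⟩ : ∃ a : ℤ, a = round ((q : ℝ) * (θ - θ')) := ⟨_, rfl⟩
  rw [← ha] at h
  obtain ⟨s, hs⟩ : ∃ s : ℝ, s = N * (θ' + a / q - θ) := ⟨_, rfl⟩
  obtain ⟨c, hc⟩ : ∃ c : ℤ, c = round (φ' - φ + s * n / N) := ⟨_, rfl⟩
  refine ⟨φ' - φ + s * n / N - c, s, ?_, ?_, ?_⟩
  · rw [hc]
    exact abs_sub_round _
  · have e : s = -(N / q * ((q : ℝ) * (θ - θ') - a)) := by
      rw [hs]
      field_simp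
      ring
    rw [e, abs_neg, abs_mul, abs_of_pos (div_pos hN0 hq0)]
    calc (N : ℝ) / q * |(q : ℝ) * (θ - θ') - a| ≤ N / q * (5 * q / N) :=
          mul_le_mul_of_nonneg_left h.le (div_pos hN0 hq0).le
      _ = 5 := by field_simp
  · rintro m ⟨k, rfl⟩
    have hth : th N θ s = θ' + a / q := by
      unfold th
      rw [hs]
      field_simp
      ring
    have hph : ph N n φ (φ' - φ + s * n / N - c) s = φ' - c := by
      unfold ph
      ring
    rw [hth, hph]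
    have e : 2 * Real.pi * ((θ' + a / q) * ((q * k : ℕ) : ℝ) + (φ' - c)) =
        2 * Real.pi * (θ' * ((q * k : ℕ) : ℝ) + φ') + ((a * k - c : ℤ) : ℝ) * (2 * Real.pi) := by
      push_cast
      field_simp
      ring
    rw [e, Real.cos_add_int_mul_two_pi]

theorem pf_SLO : T_SLO := by
  intro q N n θ φ θ' φ' hq hN
  by_cases h1 : nd (q * (θ - θ')) < 5 * (q : ℝ) / N
  · left
    exact slo_one q N n θ φ θ' φ' hq hN h1
  · by_cases h2 : nd (q * (θ + θ')) < 5 * (q : ℝ) / N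
    · left
      have h3 : nd (q * (θ - -θ')) < 5 * (q : ℝ) / N := by
        rw [sub_neg_eq_add]
        exact h2
      obtain ⟨r, s, hr, hs, hm⟩ := slo_one q N n θ φ (-θ') (-φ') hq hN h3
      refine ⟨r, s, hr, hs, ?_⟩
      intro m hqm
      rw [← hm m hqm, ← Real.cos_neg]
      congr 1
      ring
    · right
      exact ⟨not_lt.1 h1, not_lt.1 h2⟩

end Pool.Agent.H5.EN
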