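import Pool.Agent.H65.EN.Targets
import Pool.Agent.H31.LV.Basic

/-!
# The end without loss in the mean, row KLI: the kernel is Lipschitz in the coefficients
-/

set_option autoImplicit false

open Finset MeasureTheory

namespace Pool.Agent.H5.EN

open Pool.Agent.H24.CL Pool.Agent.H24.LV Pool.Agent.H31.LV Pool.Agent.H50.LV Pool.Agent.H65.EN

private lemma cPs {k : ℕ} (η : Fin k → ℝ) : Continuous (Ps η) := by
  unfold Ps
  refine continuous_finsetSum _ fun i _ => ?_
  split_ifs <;> fun_prop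

private lemma cg {k : ℕ} (η : Fin k → ℝ) (h : ℕ) :
    Continuous fun y : ℝ => ee (Ps η (y + h) - Ps η y) :=
  continuous_ee.comp (((cPs η).comp (continuous_id.add continuous_const)).sub (cPs η))

/-- the difference of the phases -/
private lemma phase {k N h : ℕ} {η η' : Fin k → ℝ} {ρ : ℝ} (hN : 1 ≤ N)
    (hη : ∀ i : Fin k, i.val ≠ 0 → |η i * (N : ℝ) ^ (i.val + 1) -
      η' i * (N : ℝ) ^ (i.val + 1)| ≤ ρ) (hρ : 0 ≤ ρ) {y : ℝ} (h0 : 0 ≤ y) (h1 : y + h ≤ N) :
    |Ps η (y + h) - Ps η y - (Ps η' (y + h) - Ps η' y)| ≤ k * ρ := by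
  have hN0 : (0 : ℝ) < N := by exact_mod_cast hN
  have e : Ps η (y + h) - Ps η y - (Ps η' (y + h) - Ps η' y) =
      ∑ i : Fin k, if i.val = 0 then 0 else
        (η i - η' i) * ((y + h) ^ (i.val + 1) - y ^ (i.val + 1)) := by
    unfold Ps
    rw [← sum_sub_distrib, ← sum_sub_distrib, ← sum_sub_distrib]
    refine sum_congr rfl fun i _ => ?_
    split_ifs
    · ring
    · ring
  rw [e]
  refine (abs_sum_le_sum_abs _ _).trans ?_
  calc ∑ i : Fin k, |if i.val = 0 then 0 else
        (η i - η' i) * ((y + h) ^ (i.val + 1) - y ^ (i.val + 1))| ≤ ∑ _i : Fin k, ρ := by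
        refine sum_le_sum fun i _ => ?_
        split_ifs with hi
        · rw [abs_zero]
          exact hρ
        · have h2 := hη i hi
          rw [← sub_mul, abs_mul, abs_of_pos (pow_pos hN0 _)] at h2
          rw [abs_mul]
          refine le_trans ?_ h2
          refine mul_le_mul_of_nonneg_left ?_ (abs_nonneg _)
          have h3 : (0 : ℝ) ≤ y ^ (i.val + 1) := pow_nonneg h0 _
          have hh : (0 : ℝ) ≤ h := Nat.cast_nonneg h
          have h4 : y ^ (i.val + 1) ≤ (y + h) ^ (i.val + 1) :=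
            pow_le_pow_left₀ h0 (by linarith) _
          have h5 : (y + h) ^ (i.val + 1) ≤ (N : ℝ) ^ (i.val + 1) :=
            pow_le_pow_left₀ (by linarith) h1 _
          rw [abs_of_nonneg (by linarith)]
          linarith
    _ = k * ρ := by simp

theorem pf_KLI : T_KLI := by
  intro k N h η η' τ ρ hN hh hτ hτ0 hρ hη
  have hN0 : (0 : ℝ) < N := by exact_mod_cast hN
  have hL : (0 : ℝ) ≤ (N : ℝ) - h := sub_nonneg.2 (by exact_mod_cast hh)
  set g : ℝ → ℂ := fun y => ee (Ps η (y + h) - Ps η y) with hg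
  set g' : ℝ → ℂ := fun y => ee (Ps η' (y + h) - Ps η' y) with hg'
  have ig : ∀ a b, IntervalIntegrable g volume a b := fun a b => (cg η h).intervalIntegrable a b
  have ig' : ∀ a b, IntervalIntegrable g' volume a b :=
    fun a b => (cg η' h).intervalIntegrable a b
  have n1 : ∀ y, ‖g y‖ ≤ 1 := fun y => (norm_ee _).le
  have e : (∫ y in τ..(τ + N - h), g y) - ∫ y in (0 : ℝ)..(0 + N - h), g' y =
      (∫ y in τ..0, g y) + (∫ y in ((N : ℝ) - h)..(τ + N - h), g y) +
        ∫ y in (0 : ℝ)..((N : ℝ) - h), (g y - g' y) := by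
    rw [intervalIntegral.integral_sub (ig _ _) (ig' _ _), zero_add]
    have h1 := intervalIntegral.integral_add_adjacent_intervals (ig τ 0) (ig 0 ((N : ℝ) - h))
    have h2 := intervalIntegral.integral_add_adjacent_intervals (ig τ ((N : ℝ) - h))
      (ig ((N : ℝ) - h) (τ + N - h))
    rw [← h2, ← h1]
    ring
  have b1 : ‖∫ y in τ..0, g y‖ ≤ 1 := by
    have := intervalIntegral.norm_integral_le_of_norm_le_const (a := τ) (b := 0) (C := 1)
      (f := g) (fun y _ => n1 y)
    refine this.trans ?_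
    rw [one_mul, abs_le]
    constructor <;> linarith
  have b2 : ‖∫ y in ((N : ℝ) - h)..(τ + N - h), g y‖ ≤ 1 := by
    have := intervalIntegral.norm_integral_le_of_norm_le_const (a := (N : ℝ) - h)
      (b := τ + N - h) (C := 1) (f := g) (fun y _ => n1 y)
    refine this.trans ?_
    rw [one_mul, abs_le]
    constructor <;> linarith
  have b3 : ‖∫ y in (0 : ℝ)..((N : ℝ) - h), (g y - g' y)‖ ≤ 2 * Real.pi * (k * ρ) * N := by
    have := intervalIntegral.norm_integral_le_of_norm_le_const (a := 0)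
      (b := (N : ℝ) - h) (C := 2 * Real.pi * (k * ρ)) (f := fun y => g y - g' y) (by
        intro y hy
        rw [Set.uIoc_of_le hL] at hy
        refine (norm_ee_sub _ _).trans ?_
        refine mul_le_mul_of_nonneg_left ?_ (by positivity)
        exact phase hN hη hρ hy.1.le (by linarith [hy.2]))
    refine this.trans ?_
    refine mul_le_mul_of_nonneg_left ?_ (by positivity)
    rw [sub_zero, abs_of_nonneg hL]
    have : (0 : ℝ) ≤ h := Nat.cast_nonneg h
    linarith
  have e2 : KP N η τ h - KP N η' 0 h = (1 / (N : ℂ)) *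
      ((∫ y in τ..(τ + N - h), g y) - ∫ y in (0 : ℝ)..(0 + N - h), g' y) := by
    unfold KP
    rw [mul_sub]
  rw [e2, e, norm_mul]
  have e3 : ‖(1 / (N : ℂ))‖ = 1 / (N : ℝ) := by simp
  rw [e3]
  have b4 : ‖(∫ y in τ..0, g y) + (∫ y in ((N : ℝ) - h)..(τ + N - h), g y) +
        ∫ y in (0 : ℝ)..((N : ℝ) - h), (g y - g' y)‖ ≤ 2 + 2 * Real.pi * (k * ρ) * N := by
    refine (norm_add_le _ _).trans ?_
    have := norm_add_le (∫ y in τ..0, g y) (∫ y in ((N : ℝ) - h)..(τ + N - h), g y)
    linarith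
  have hpi : Real.pi ≤ 4 := Real.pi_le_four
  have hk : (0 : ℝ) ≤ k * ρ := by positivity
  calc 1 / (N : ℝ) * ‖(∫ y in τ..0, g y) + (∫ y in ((N : ℝ) - h)..(τ + N - h), g y) +
        ∫ y in (0 : ℝ)..((N : ℝ) - h), (g y - g' y)‖
      ≤ 1 / (N : ℝ) * (2 + 2 * Real.pi * (k * ρ) * N) :=
        mul_le_mul_of_nonneg_left b4 (by positivity)
    _ = 2 / N + 2 * Real.pi * (k * ρ) := by field_simp
    _ ≤ 2 / N + 16 * k * ρ := by nlinarith

end Pool.Agent.H5.EN
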